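import Pool.Graph.R_seed8.Y828.TK.Inf

/-! In every interval the non-dyadic ordinates of the Takagi function whose level set is countably
infinite form a set of Hausdorff dimension at least `1/24`. -/

open Set MeasureTheory NNReal

namespace Pool.Agent.Results.MP_4a5b11_an.PositiveDimension

/-- The distance from `x` to the nearest integer. -/
noncomputable def phi (x : ℝ) : ℝ := |x - round x|

/-- The Takagi function. -/
noncomputable def takagi (x : ℝ) : ℝ := ∑' n : ℕ, phi (2 ^ n * x) / 2 ^ n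

/-- The level set `L(y) = {x ∈ [0,1] : T(x) = y}` of the Takagi function. -/
def levelSet (y : ℝ) : Set ℝ := {x : ℝ | x ∈ Icc (0 : ℝ) 1 ∧ takagi x = y}

/-- The ordinates `y` in the open interval `(a, b)` whose level set is countably infinite and which
are not of the form `T(x)` with a dyadic rational `x = k / 2^m` in `[0,1]`. -/
def nonDyadicOrdinates (a b : ℝ) : Set ℝ :=
  {y : ℝ | y ∈ Ioo a b ∧ (levelSet y).Countable ∧ (levelSet y).Infinite ∧
    ∀ m k : ℕ, k ≤ 2 ^ m → takagi ((k : ℝ) / 2 ^ m) ≠ y}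

open Pool.Agent.Y828.TK

/-- The number with the binary digits `ω`. -/
noncomputable def beta (ω : ℕ → Bool) : ℝ :=
  Real.ofDigits (b := 2) (fun j => if ω j then 1 else 0)

theorem scale (ω ω' : ℕ → Bool) : ∀ j : ℕ, (∀ i < j, ω i = ω' i) →
    (2 : ℝ) ^ (24 * j) * (tl ω 0 - tl ω' 0) = tl ω (24 * j) - tl ω' (24 * j) := by
  intro j
  induction j with
  | zero => intro _; simp
  | succ j ih =>
    intro h
    have h1 := ih (fun i hi => h i (by omega))
    have b1 := tl_block ω j
    have b2 := tl_block ω' j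
    rw [h j (by omega)] at b1
    have e : (2 : ℝ) ^ (24 * (j + 1)) = 2 ^ 24 * 2 ^ (24 * j) := by
      rw [← pow_add]; congr 1; ring
    rw [e, mul_assoc, h1]
    linarith

theorem sep (ω ω' : ℕ → Bool) (hne : ω ≠ ω') : ∃ j : ℕ, (∀ i < j, ω i = ω' i) ∧
    (1 / 2 : ℝ) ^ (24 * (j + 1)) ≤ |tl ω 0 - tl ω' 0| := by
  classical
  have hex : ∃ j, ω j ≠ ω' j := by
    by_contra hno
    push Not at hno
    exact hne (funext hno)
  have hj := Nat.find_spec hex
  have hmin : ∀ i < Nat.find hex, ω i = ω' i := fun i hi => by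
    have := Nat.find_min hex hi
    push Not at this
    exact this
  set j := Nat.find hex with hjd
  refine ⟨j, hmin, ?_⟩
  have h1 := scale ω ω' j hmin
  have b1 := tl_block ω j
  have b2 := tl_block ω' j
  have l1 := tl_nonneg ω (24 * (j + 1))
  have l2 := tl_nonneg ω' (24 * (j + 1))
  have u1 := tl_le_one ω (24 * (j + 1))
  have u2 := tl_le_one ω' (24 * (j + 1))
  have h2 : (1 : ℝ) ≤ |2 ^ 24 * (tl ω (24 * j) - tl ω' (24 * j))| := by
    rw [mul_sub, b1, b2]
    cases hk : ω j <;> cases hk' : ω' j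
    · rw [hk, hk'] at hj; exact absurd rfl hj
    · rw [le_abs]
      right
      simp only [bv]
      norm_num
      linarith
    · rw [le_abs]
      left
      simp only [bv]
      norm_num
      linarith
    · rw [hk, hk'] at hj; exact absurd rfl hj
  rw [← h1, ← mul_assoc, ← pow_add, abs_mul, abs_of_pos (by positivity)] at h2
  have e : 24 + 24 * j = 24 * (j + 1) := by ring
  rw [e] at h2
  have h3 : (1 / 2 : ℝ) ^ (24 * (j + 1)) * 2 ^ (24 * (j + 1)) = 1 := by
    rw [← mul_pow]; norm_num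
  have h4 : (0 : ℝ) < 2 ^ (24 * (j + 1)) := by positivity
  by_contra hlt
  push Not at hlt
  have h5 : 2 ^ (24 * (j + 1)) * |tl ω 0 - tl ω' 0| < 2 ^ (24 * (j + 1)) * (1 / 2 : ℝ) ^ (24 * (j + 1)) :=
    mul_lt_mul_of_pos_left hlt h4
  linarith

theorem beta_le (ω ω' : ℕ → Bool) :
    |beta ω - beta ω'| ≤ 2 * |tl ω 0 - tl ω' 0| ^ (1 / 24 : ℝ) := by
  by_cases hne : ω = ω'
  · subst hne
    simp only [sub_self, abs_zero]
    positivity
  · obtain ⟨j, h1, h2⟩ := sep ω ω' hne
    have h3 : |beta ω - beta ω'| ≤ ((2 : ℕ) ^ j : ℝ)⁻¹ := by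
      unfold beta
      exact_mod_cast Real.abs_ofDigits_sub_ofDigits_le (b := 2) (n := j)
        (fun i hi => by simp only [h1 i hi])
    have h4 : ((1 / 2 : ℝ) ^ (24 * (j + 1))) ^ (1 / 24 : ℝ) = (1 / 2) ^ (j + 1) := by
      rw [← Real.rpow_natCast, ← Real.rpow_mul (by norm_num), ← Real.rpow_natCast]
      congr 1
      push_cast
      ring
    have h5 : (1 / 2 : ℝ) ^ (j + 1) ≤ |tl ω 0 - tl ω' 0| ^ (1 / 24 : ℝ) := by
      rw [← h4]
      exact Real.rpow_le_rpow (by positivity) h2 (by norm_num)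
    refine h3.trans ?_
    have h6 : ((2 : ℕ) ^ j : ℝ)⁻¹ = 2 * (1 / 2 : ℝ) ^ (j + 1) := by
      rw [pow_succ, one_div, inv_pow]
      push_cast
      ring
    rw [h6]
    linarith

/-- For every nonempty open interval `(a, b)` inside `[0, 2/3]`, the ordinates `y ∈ (a, b)` whose
level set is countably infinite and which are not of the form `T(x)` with a dyadic rational `x` form
a set of Hausdorff dimension at least `1/24`. -/
theorem result (a b : ℝ) (ha : 0 ≤ a) (hab : a < b) (hb : b ≤ 2 / 3) :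
    ((1 / 24 : ℝ≥0) : ENNReal) ≤ dimH (nonDyadicOrdinates a b) := by
  obtain ⟨K, m, hK⟩ := exists_K a b ha hab hb
  set F : (ℕ → Bool) → ℝ := fun ω => ((K : ℝ) + tl ω 0) / 2 ^ m with hF
  have hm : (0 : ℝ) < 2 ^ m := by positivity
  have hinj : Function.Injective F := by
    intro ω ω' h
    apply tl_injective
    have h4 := (div_left_inj' hm.ne').1 h
    show tl ω 0 = tl ω' 0
    linarith
  have hsub : range F ⊆ nonDyadicOrdinates a b := by
    rintro _ ⟨ω, rfl⟩
    obtain ⟨h1, h2, h3⟩ := hK ω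
    have hLS : levelSet (F ω) = Pool.Agent.Results.MP_4a5b11_an.NonDyadicCountable.N 0 (F ω) :=
      Pool.Agent.Results.MP_4a5b11_an.NonDyadicCountable.levelSet_eq (F ω)
    refine ⟨⟨h1, h2⟩, ?_, ?_, ?_⟩
    · rw [hLS]; exact cnt_dy ω m 0 K
    · rw [hLS]; exact h3
    · intro p k _ h
      obtain ⟨L, hL⟩ := Pool.Agent.Results.MP_4a5b11_an.NonDyadicCountable.T_dyadic p (k : ℤ)
      rw [Int.cast_natCast] at hL
      have h' : Pool.Agent.Results.MP_4a5b11_an.NonDyadicCountable.T ((k : ℝ) / 2 ^ p) = F ω := h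
      rw [hL] at h'
      exact not_dy ω K L m p h'.symm
  refine le_trans ?_ (dimH_mono hsub)
  set g : ℝ → ℝ := fun y => beta (Function.invFun F y) with hg
  have hgF : ∀ ω, g (F ω) = beta ω := by
    intro ω
    simp only [hg]
    rw [Function.leftInverse_invFun hinj ω]
  have hhol : HolderOnWith (2 * 2 ^ m) (1 / 24) g (range F) := by
    rintro _ ⟨ω, rfl⟩ _ ⟨ω', rfl⟩
    rw [hgF, hgF, edist_dist, edist_dist, Real.dist_eq, Real.dist_eq]
    have h1 := beta_le ω ω'
    have h2 : |tl ω 0 - tl ω' 0| = 2 ^ m * |F ω - F ω'| := by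
      simp only [hF]
      rw [← _root_.sub_div, add_sub_add_left_eq_sub, abs_div, abs_of_pos hm]
      field_simp
    have h3 : |tl ω 0 - tl ω' 0| ^ (1 / 24 : ℝ) ≤ 2 ^ m * |F ω - F ω'| ^ (1 / 24 : ℝ) := by
      rw [h2, Real.mul_rpow hm.le (abs_nonneg _)]
      apply mul_le_mul_of_nonneg_right _ (by positivity)
      calc ((2 : ℝ) ^ m) ^ (1 / 24 : ℝ) ≤ ((2 : ℝ) ^ m) ^ (1 : ℝ) :=
            Real.rpow_le_rpow_of_exponent_le (one_le_pow₀ (by norm_num)) (by norm_num)
        _ = 2 ^ m := Real.rpow_one _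
    have h4 : |beta ω - beta ω'| ≤ 2 * 2 ^ m * |F ω - F ω'| ^ (1 / 24 : ℝ) := by
      refine h1.trans ?_
      rw [mul_assoc]
      linarith
    calc ENNReal.ofReal |beta ω - beta ω'|
        ≤ ENNReal.ofReal (2 * 2 ^ m * |F ω - F ω'| ^ (1 / 24 : ℝ)) := ENNReal.ofReal_le_ofReal h4
      _ = ENNReal.ofReal (2 * 2 ^ m) * ENNReal.ofReal |F ω - F ω'| ^ (1 / 24 : ℝ) := by
          rw [ENNReal.ofReal_mul (by positivity),
            ENNReal.ofReal_rpow_of_nonneg (abs_nonneg _) (by norm_num)]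
      _ = _ := by
          congr 1
          · rw [ENNReal.ofReal]
            congr 1
            ext
            rw [Real.coe_toNNReal _ (by positivity)]
            push_cast
            rfl
  have himg : Ico (0 : ℝ) 1 ⊆ g '' range F := by
    intro x hx
    have hd := Real.ofDigits_digits (b := 2) (by norm_num) hx
    refine ⟨F (fun j => decide (Real.digits x 2 j = 1)), ⟨_, rfl⟩, ?_⟩
    rw [hgF]
    unfold beta
    refine Eq.trans ?_ hd
    congr 1
    funext j
    have h01 : Real.digits x 2 j = 0 ∨ Real.digits x 2 j = 1 := by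
      have := (Real.digits x 2 j).isLt
      rcases Nat.lt_or_ge (Real.digits x 2 j : ℕ) 1 with h | h
      · left; apply Fin.ext; simp; omega
      · right; apply Fin.ext; simp; omega
    rcases h01 with h | h <;> simp [h]
  have h1 : (1 : ENNReal) ≤ dimH (g '' range F) := by
    have h2 : dimH (Ico (0 : ℝ) 1) = 1 := by
      have h3 := Real.dimH_of_nonempty_interior (E := ℝ) (s := Ico (0 : ℝ) 1)
        (by rw [interior_Ico]; exact ⟨1 / 2, by norm_num, by norm_num⟩)
      rw [h3]
      simp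
    rw [← h2]
    exact dimH_mono himg
  have h2 := h1.trans (hhol.dimH_image_le (by norm_num))
  rw [ENNReal.le_div_iff_mul_le (Or.inl (by simp)) (Or.inl ENNReal.coe_ne_top), one_mul] at h2
  exact h2

end Pool.Agent.Results.MP_4a5b11_an.PositiveDimension
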